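import Pool.Agent.Helper2.SV.GoalsC
import Pool.Agent.Helper2.SV.GoalsP

/-!
# Project SV, packet I02

In a minimal claw-free counterexample with a 5-wheel, the set of the indices `i` with `EE i`
nonempty is not `{0, 2}`.
-/

set_option autoImplicit false

namespace Pool.Agent.Helper33.SV

open Pool.Agent.Helper2.SV

/-- I02: `I0` is not `{0, 2}`. -/
theorem goalI02 (hGL : G_GLUE) (hCOB : G_COB) : G_I02 := by
  intro V _ G w u d hclaw hMF hW hWF hV0 hI
  obtain ⟨glue1, -, -⟩ := hGL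
  have hE0 : (EE G u d 0).Nonempty := (hI 0).2 (Or.inl rfl)
  have hE2 : (EE G u d 2).Nonempty := (hI 2).2 (Or.inr rfl)
  have hne : ∀ i : Fin 5, i ≠ 0 → i ≠ 2 → ∀ x, x ∉ EE G u d i := by
    intro i h0 h2 x hx
    rcases (hI i).1 ⟨x, hx⟩ with h | h
    · exact h0 h
    · exact h2 h
  have hV20 : (V2 G u d 0).Nonempty := hE0.imp fun x hx => hx.1
  have hV22 : (V2 G u d 2).Nonempty := hE2.imp fun x hx => hx.1
  have hV21 : ∀ x, x ∉ V2 G u d 1 := by
    intro x hx
    have h := hWF.e4 0 (Or.inl hE0) hV20 ⟨x, hx⟩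
    exact hne 1 (by decide) (by decide) x (h.2.1 hx)
  have hV23 : ∀ x, x ∉ V2 G u d 3 := by
    intro x hx
    have h := hWF.e4 2 (Or.inl hE2) hV22 ⟨x, hx⟩
    exact hne 3 (by decide) (by decide) x (h.2.1 hx)
  have hV24 : ∀ x, x ∉ V2 G u d 4 := by
    intro x hx
    have h := hWF.e4 4 (Or.inr hE0) ⟨x, hx⟩ hV20
    exact hne 4 (by decide) (by decide) x (h.1 hx)
  -- membership in `TT`
  have memT : ∀ x, x ∉ V0 G u d → x ∉ EE G u d 0 → x ∉ EE G u d 2 → x ∈ TT G u d := by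
    intro x h0 h1 h2
    refine ⟨h0, fun j => ?_⟩
    by_cases hj0 : j = 0
    · subst hj0; exact h1
    by_cases hj2 : j = 2
    · subst hj2; exact h2
    exact hne j hj0 hj2 x
  -- neighbours of `EE i` in `TT` are in `SS i`
  have memS : ∀ i x g, x ∈ TT G u d → g ∈ EE G u d i → G.Adj x g → x ∈ SS G u d i :=
    fun i x g hx hg h => ⟨hx, g, hg, h⟩
  have rimE : ∀ i g, g ∈ EE G u d i → ∀ j, G.Adj g (d j) ↔ (j = i ∨ j = i + 1) :=
    fun i g hg => hg.1.2
  set R : Set V := {x | x ∈ TT G u d ∧ x ∉ SS G u d 0 ∧ x ∉ SS G u d 2} with hRdef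
  -- `R ⊆ {u} ∪ N(u)`
  have hRN : ∀ x ∈ R, x = u ∨ G.Adj u x := by
    intro x hx
    by_contra hcon
    push Not at hcon
    obtain ⟨hxu, hux⟩ := hcon
    have hxM : x ∈ Mn G u := ⟨hxu, hux⟩
    obtain ⟨hxT, hxS0, hxS2⟩ := hx
    have key : ∀ j : Fin 5, j ≠ 4 → ¬ G.Adj x (d j) := by
      intro j hj hadj
      have h0 := hWF.sM 0 hE0 x hxM hxT
      have h2 := hWF.sM 2 hE2 x hxM hxT
      fin_cases j
      · exact hxS0 (h0 (Or.inl hadj))
      · exact hxS0 (h0 (Or.inr hadj))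
      · exact hxS2 (h2 (Or.inl hadj))
      · exact hxS2 (h2 (Or.inr hadj))
      · exact hj rfl
    rcases hWF.types x hxM with h | ⟨i, h⟩ | ⟨j, h1, h2, h3⟩
    · exact hxT.1 h
    · fin_cases i
      · exact key 0 (by decide) ((h.2 0).2 (by decide))
      · exact hV21 x h
      · exact key 2 (by decide) ((h.2 2).2 (by decide))
      · exact hV23 x h
      · exact hV24 x h
    · by_cases hj : j = 4
      · subst hj
        exact key _ (by decide) h2
      · exact key j hj h1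
  -- rim vertices in `R`
  have hRrim : ∀ j, d j ∈ R → j = 4 := by
    intro j hj
    have h0 := hWF.sd 0 hE0
    have h2 := hWF.sd 2 hE2
    fin_cases j
    · exact absurd h0.1 hj.2.1
    · exact absurd h0.2 hj.2.1
    · exact absurd h2.1 hj.2.2
    · exact absurd h2.2 hj.2.2
    · rfl
  -- a vertex of `R ∩ N(u)` off the rim is adjacent to `d 4`
  have hR4 : ∀ x ∈ R, G.Adj u x → (∀ j, x ≠ d j) → G.Adj x (d 4) := by
    intro x hx hux hoff
    by_contra h4
    have m3 := hWF.miss x 3 hux hoff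
    rcases m3 with h | h
    · exact hx.2.2 (hWF.sN 2 hE2 x hux hoff (Or.inr ⟨h, h4⟩))
    · exact hx.2.1 (hWF.sN 0 hE0 x hux hoff (Or.inl ⟨h, h4⟩))
  have hoffadj : ∀ x ∈ R, ∀ x' ∈ R, x ≠ x' → G.Adj u x → G.Adj u x' → (∀ j, x ≠ d j) →
      (∀ j, x' ≠ d j) → G.Adj x x' := by
    have main : ∀ x ∈ R, ∀ x' ∈ R, x ≠ x' → G.Adj u x → G.Adj u x' → (∀ j, x ≠ d j) →
        (∀ j, x' ≠ d j) → G.Adj x (d 1) → G.Adj x x' := by
      intro x hx x' hx' hxx hux hux' hoff hoff' hx1
      have hE0' := hE0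
      have hE2' := hE2
      obtain ⟨g, hg⟩ := hE0'
      obtain ⟨g', hg'⟩ := hE2'
      have hgx : ¬ G.Adj g x := fun h => hx.2.1 (memS 0 x g hx.1 hg h.symm)
      have hgx' : ¬ G.Adj g x' := fun h => hx'.2.1 (memS 0 x' g hx'.1 hg h.symm)
      have hg'x : ¬ G.Adj g' x := fun h => hx.2.2 (memS 2 x g' hx.1 hg' h.symm)
      have hg'x' : ¬ G.Adj g' x' := fun h => hx'.2.2 (memS 2 x' g' hx'.1 hg' h.symm)
      have negx : g ≠ x := fun h => hx.1.2 0 (h ▸ hg)
      have negx' : g ≠ x' := fun h => hx'.1.2 0 (h ▸ hg)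
      have neg'x : g' ≠ x := fun h => hx.1.2 2 (h ▸ hg')
      have neg'x' : g' ≠ x' := fun h => hx'.1.2 2 (h ▸ hg')
      have claw0 : ∀ j, G.Adj g (d j) → G.Adj x (d j) → G.Adj x' (d j) → G.Adj x x' := by
        intro j h1 h2 h3
        rcases hclaw (d j) g x x' h1.symm h2.symm h3.symm negx negx' hxx with h | h | h
        · exact absurd h hgx
        · exact absurd h hgx'
        · exact h
      have claw2 : ∀ j, G.Adj g' (d j) → G.Adj x (d j) → G.Adj x' (d j) → G.Adj x x' := by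
        intro j h1 h2 h3
        rcases hclaw (d j) g' x x' h1.symm h2.symm h3.symm neg'x neg'x' hxx with h | h | h
        · exact absurd h hg'x
        · exact absurd h hg'x'
        · exact h
      by_cases hx'1 : G.Adj x' (d 1)
      · exact claw0 1 ((rimE 0 g hg 1).2 (by decide)) hx1 hx'1
      · have hx'2 : ¬ G.Adj x' (d 2) := fun h =>
          hx'.2.2 (hWF.sN 2 hE2 x' hux' hoff' (Or.inl ⟨h, hx'1⟩))
        have hx'3 : G.Adj x' (d 3) := by
          rcases hWF.miss x' 1 hux' hoff' with h | h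
          · exact absurd h hx'1
          · exact h
        have hx'0 : G.Adj x' (d 0) := by
          rcases hWF.miss x' 0 hux' hoff' with h | h
          · exact h
          · exact absurd h hx'2
        rcases hWF.miss x 3 hux hoff with h | h
        · exact claw2 3 ((rimE 2 g' hg' 3).2 (by decide)) h hx'3
        · exact claw0 0 ((rimE 0 g hg 0).2 (by decide)) h hx'0
    intro x hx x' hx' hxx hux hux' hoff hoff'
    by_cases h1 : G.Adj x (d 1)
    · exact main x hx x' hx' hxx hux hux' hoff hoff' h1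
    by_cases h1' : G.Adj x' (d 1)
    · exact (main x' hx' x hx hxx.symm hux' hux hoff' hoff h1').symm
    exact hWF.both x x' 1 hux hux' hxx (hoff 1) (hoff' 1) h1 h1'
  have hRclq : Clq G R := by
    intro x hx x' hx' hxx
    rcases hRN x hx with rfl | hux
    · rcases hRN x' hx' with rfl | hux'
      · exact absurd rfl hxx
      · exact hux'
    · rcases hRN x' hx' with rfl | hux'
      · exact hux.symm
      · by_cases hr : ∃ j, x = d j
        · obtain ⟨j, rfl⟩ := hr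
          have hj := hRrim j hx
          subst hj
          by_cases hr' : ∃ j, x' = d j
          · obtain ⟨j', rfl⟩ := hr'
            have hj' := hRrim j' hx'
            subst hj'
            exact absurd rfl hxx
          · push Not at hr'
            exact (hR4 x' hx' hux' hr').symm
        · push Not at hr
          by_cases hr' : ∃ j, x' = d j
          · obtain ⟨j', rfl⟩ := hr'
            have hj' := hRrim j' hx'
            subst hj'
            exact hR4 x hx hux hr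
          · push Not at hr'
            exact hoffadj x hx x' hx' hxx hux hux' hr hr'
  -- (b)
  set P : Set V := {x | x ∈ V0 G u d ∨ x ∈ EE G u d 0 ∨ x ∈ EE G u d 2 ∨
    (x ∈ SS G u d 0 ∧ x ∈ SS G u d 2)} with hPdef
  have huP : u ∉ P := by
    rintro (h | h | h | h)
    · exact h.1.1 rfl
    · exact hWF.uT.1.2 0 h
    · exact hWF.uT.1.2 2 h
    · exact hWF.uT.2 0 h.1
  have hPne : P ≠ Set.univ := fun h => huP (h ▸ Set.mem_univ u)
  obtain ⟨A', hA'P, hA'perf, hA'meet⟩ := hMF.ih P hPne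
  set L : Set V := {x | x ∈ R ∨ (x ∈ SS G u d 0 ∧ x ∉ SS G u d 2)} with hLdef
  set C : Set V := {x | x ∈ A' ∧ (x ∈ EE G u d 0 ∨ (x ∈ SS G u d 0 ∧ x ∈ SS G u d 2))} with hCdef
  have hLT : ∀ x ∈ L, x ∈ TT G u d ∧ x ∉ SS G u d 2 := by
    rintro x (h | h)
    · exact ⟨h.1, h.2.2⟩
    · exact ⟨h.1.1, h.2⟩
  have hLP : ∀ x ∈ L, x ∉ P := by
    intro x hx hxP
    obtain ⟨hT, hS⟩ := hLT x hx
    rcases hxP with h | h | h | h
    · exact hT.1 h
    · exact hT.2 0 h
    · exact hT.2 2 h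
    · exact hS h.2
  have hCclq : Clq G C := (hWF.sQ 0).mono (by
    rintro x ⟨-, h | h⟩
    · exact Or.inl h
    · exact Or.inr h.1)
  have hLC : Perf G (L ∪ C) := by
    refine (hCOB V G R (EE G u d 0 ∪ SS G u d 0) hRclq (hWF.sQ 0)).mono ?_
    rintro x ((h | h) | ⟨-, h | h⟩)
    · exact Or.inl h
    · exact Or.inr (Or.inr h.1)
    · exact Or.inr (Or.inl h)
    · exact Or.inr (Or.inr h.1)
  have hB : Perf G (A' ∪ (L ∪ C)) := by
    refine glue1 V G A' (L ∪ C) hA'perf hLC ?_ ?_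
    · refine hCclq.mono ?_
      rintro x ⟨hxA, hxL | hxC⟩
      · exact absurd (hA'P hxA) (hLP x hxL)
      · exact hxC
    · intro x hxA hxLC y hy hyA hadj
      have hyL : y ∈ L := by
        rcases hy with h | h
        · exact h
        · exact absurd h.1 hyA
      obtain ⟨hyT, hyS⟩ := hLT y hyL
      rcases hA'P hxA with h | h | h | h
      · exact hWF.v0T x h y hyT hadj
      · exact hxLC (Or.inr ⟨hxA, Or.inl h⟩)
      · exact hyS (memS 2 y x hyT h hadj.symm)
      · exact hxLC (Or.inr ⟨hxA, Or.inr h⟩)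
  -- (c)
  obtain ⟨K, hK, hKB, hKfree⟩ := hMF.free _ hB
  have hKcase : ∀ x ∈ K, x ∈ P ∨ (x ∈ SS G u d 2 ∧ x ∉ SS G u d 0) := by
    intro x hx
    have hxB := hKB x hx
    by_cases h0 : x ∈ V0 G u d
    · exact Or.inl (Or.inl h0)
    by_cases h1 : x ∈ EE G u d 0
    · exact Or.inl (Or.inr (Or.inl h1))
    by_cases h2 : x ∈ EE G u d 2
    · exact Or.inl (Or.inr (Or.inr (Or.inl h2)))
    have hT := memT x h0 h1 h2
    by_cases s0 : x ∈ SS G u d 0
    · by_cases s2 : x ∈ SS G u d 2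
      · exact Or.inl (Or.inr (Or.inr (Or.inr ⟨s0, s2⟩)))
      · exact absurd (Or.inr (Or.inl (Or.inr ⟨s0, s2⟩))) hxB
    · by_cases s2 : x ∈ SS G u d 2
      · exact Or.inr ⟨s2, s0⟩
      · exact absurd (Or.inr (Or.inl (Or.inl ⟨hT, s0, s2⟩))) hxB
  have hs : ∃ s ∈ K, s ∈ SS G u d 2 ∧ s ∉ SS G u d 0 := by
    by_contra hcon
    push Not at hcon
    have hsub : (↑K : Set V) ⊆ P := by
      intro x hx
      rcases hKcase x hx with h | h
      · exact h
      · exact absurd (hcon x hx h.1) h.2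
    obtain ⟨x, hxK, hxA⟩ := hA'meet K hK hsub
    exact hKB x hxK (Or.inl hxA)
  obtain ⟨s, hsK, hsS2, hsS0⟩ := hs
  have hKS : ∀ x ∈ K, x ∈ EE G u d 2 ∪ SS G u d 2 := by
    intro x hx
    by_cases hxs : x = s
    · subst hxs
      exact Or.inr hsS2
    have hadj : G.Adj x s := hK.2.1 x hx s hsK hxs
    rcases hKcase x hx with (h | h | h | h) | h
    · exact absurd hadj (hWF.v0T x h s hsS2.1)
    · exact absurd (memS 0 s x hsS2.1 h hadj.symm) hsS0
    · exact Or.inl h
    · exact Or.inr h.2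
    · exact Or.inr h.1
  have hSK : ∀ z ∈ EE G u d 2 ∪ SS G u d 2, z ∈ K := by
    intro z hz
    by_contra hzK
    refine hMF.max K hK z fun x hx => hWF.sQ 2 z hz x (hKS x hx) ?_
    rintro rfl
    exact hzK hx
  obtain ⟨g, hg⟩ := hE2
  refine hKfree g (hSK g (Or.inl hg)) ?_
  have hcl : ∀ x, G.Adj g x → x ∉ K → ¬ G.Adj (d 2) x ∧ d 2 ≠ x := by
    intro x hgx hxK
    have hx2 : x ∉ EE G u d 2 := fun h => hxK (hSK x (Or.inl h))
    have hcase : x ∈ V0 G u d ∨ x ∈ EE G u d 0 := by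
      by_contra hcon
      push Not at hcon
      exact hxK (hSK x (Or.inr (memS 2 x g (memT x hcon.1 hcon.2 hx2) hg hgx.symm)))
    rcases hcase with h | h
    · exact ⟨fun h' => h.2 2 h'.symm, fun h' => (hWF.dT 2).1.1 (h' ▸ h)⟩
    · refine ⟨fun h' => ?_, fun h' => (hWF.dT 2).1.2 0 (h' ▸ h)⟩
      have := (rimE 0 x h 2).1 h'.symm
      revert this
      decide
  rintro x ⟨hgx, hxK⟩ x' ⟨hgx', hx'K⟩ hxx
  obtain ⟨h1, h2⟩ := hcl x hgx hxK
  obtain ⟨h3, h4⟩ := hcl x' hgx' hx'K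
  have hgd : G.Adj g (d 2) := (rimE 2 g hg 2).2 (by decide)
  rcases hclaw g (d 2) x x' hgd hgx hgx' h2 h4 hxx with h | h | h
  · exact absurd h h1
  · exact absurd h h3
  · exact h

end Pool.Agent.Helper33.SV
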